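import Pool.Agent.Lib.MP_e039bb_gt.All

/-! A right-angled Artin group that beats the cup form bound over every field. -/

namespace Pool.Agent.Results.MP_e039bb_gt.AllFields

open Pool.Agent.Lib.MP_e039bb_gt

theorem result : ∃ (Γ : SimpleGraph (Fin 20)) (a b : Fin 54 → Fin 20),
    Set.BijOn (fun i => s(a i, b i)) Set.univ Γ.edgeSet ∧
    (∀ (F : Type) [Field F], ∃ ω : Fin 20 → Fin 20 → Fin 20 → Fin 20 → F,
      (∀ s t u v, ω t s u v = -ω s t u v ∧ ω s u t v = -ω s t u v ∧ ω s t v u = -ω s t u v) ∧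
      (∀ s t u v, ¬Γ.Adj s t → ω s t u v = 0) ∧
      (Matrix.of fun i j : Fin 54 => ω (a i) (b i) (a j) (b j)).det ≠ 0) ∧
    ∀ (M : Type) [TopologicalSpace M] [T2Space M] [CompactSpace M] [ConnectedSpace M]
      [ChartedSpace (EuclideanSpace ℝ (Fin 4)) M] (x : M), Orientable M →
      Nonempty (FundamentalGroup M x ≃* Raag Γ) → (55 : Cardinal) ≤ b2 M := by
  refine ⟨All.gr, All.va, All.vb, All.v_bij, All.field_all, fun M _ _ _ _ _ x ho ⟨E⟩ => ?_⟩
  obtain ⟨c, hc⟩ := ho.dual loc_chart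
  have : PathConnectedSpace M := path_connected
  exact All.lower M x E c hc

end Pool.Agent.Results.MP_e039bb_gt.AllFields
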