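import Pool.Agent.Lib.MP_e039bb_gt.Main
import Pool.Agent.Lib.MP_e039bb_gt.Pd.Ori

/-! Right-angled Artin groups that are not cohomologically minimal, with an unbounded gap. -/

namespace Pool.Agent.Results.MP_e039bb_gt.RaagGap

open Pool.Agent.Lib.MP_e039bb_gt

theorem result (k : ℕ) : ∃ Γ : SimpleGraph (Fin k × Fin 38),
    Nat.card Γ.edgeSet = 154 * k ∧ m2 Γ = 154 * k ∧
    ∀ (M : Type) [TopologicalSpace M] [T2Space M] [CompactSpace M] [ConnectedSpace M]
      [ChartedSpace (EuclideanSpace ℝ (Fin 4)) M] (x : M), Orientable M →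
      Nonempty (FundamentalGroup M x ≃* Raag Γ) → ((155 * k : ℕ) : Cardinal) ≤ b2 M := by
  obtain ⟨Γ, h1, h2, h3⟩ := main k
  refine ⟨Γ, h1, h2, fun M _ _ _ _ _ x ho h => ?_⟩
  obtain ⟨c, hc⟩ := ho.dual loc_chart
  have : PathConnectedSpace M := path_connected
  exact h3 M x h c hc

end Pool.Agent.Results.MP_e039bb_gt.RaagGap
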